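import Pool.Agent.H97Z.ConeProof

set_option autoImplicit false

open Pool.Agent.H97Z.Cone

/-- The closed convex cone `K = ℂ × ℝ × ℝ` in `ℂ^3` and the algebraic curve
`V = {z₀ z₁ = 1, z₂ = i z₁}`: `V` stays polynomially away from `K` with exponent `1`, and no
algebraic hypersurface separates `V` from `K`. -/
theorem Pool.Agent.Results.MP_c229cb_an.ANoSeparation.result :
    ∃ K V : Set (Cn 3),
      K = {z | (z 1).im = 0 ∧ (z 2).im = 0} ∧ V = {z | z 0 * z 1 = 1 ∧ z 2 = Complex.I * z 1} ∧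
      K.Nonempty ∧ IsClosedCone K ∧ Convex ℝ K ∧
      IsVariety V ∧ V.Nonempty ∧ V ≠ Set.univ ∧ StaysAway V K 1 ∧
      ¬ ∃ S : Set (Cn 3), IsHypersurface S ∧ Separates S V K :=
  ⟨K0, V1, rfl, rfl, K0_nonempty, K0_cone, K0_convex, V1_variety, V1_nonempty, V1_ne_univ,
    V1_away, V1_not_sep⟩
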