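import Pool.Agent.H97Z.ConeProof

set_option autoImplicit false

open Pool.Agent.H97Z.Cone

/-- The closed convex cone `K = ℂ × ℝ × ℝ` in `ℂ^3` and the algebraic curve
`V = {z₀ = z₁², z₁² z₂ = i}`: `V` stays polynomially away from `K` with exponent `1`, some
algebraic hypersurface separates `V` from `K`, but no separating hypersurface stays polynomially
away from `K` with exponent `1`. -/
theorem Pool.Agent.Results.MP_c229cb_an.BExponentLoss.result :
    ∃ K V : Set (Cn 3),
      K = {z | (z 1).im = 0 ∧ (z 2).im = 0} ∧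
      V = {z | z 0 = z 1 ^ 2 ∧ z 1 ^ 2 * z 2 = Complex.I} ∧
      K.Nonempty ∧ IsClosedCone K ∧ Convex ℝ K ∧
      IsVariety V ∧ V.Nonempty ∧ V ≠ Set.univ ∧ StaysAway V K 1 ∧
      (∃ S : Set (Cn 3), IsHypersurface S ∧ Separates S V K) ∧
      ∀ S : Set (Cn 3), IsHypersurface S → Separates S V K → ¬ StaysAway S K 1 :=
  ⟨K0, V2, rfl, rfl, K0_nonempty, K0_cone, K0_convex, V2_variety, V2_nonempty, V2_ne_univ,
    V2_away, V2_sep, V2_not_away⟩
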